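import Pool.Agent.helper62.DP8.Spec

set_option autoImplicit false

namespace Pool.Agent.helper62.DP8

/-- The label of a pair. -/
def PTS_lab (s : Finset (Fin 5)) : ℕ :=
  if s = {0, 1} then 0 else if s = {2, 3} then 1 else if s = {0, 4} then 2 else if s = {1, 2} then 3 else
  if s = {3, 4} then 4 else if s = {2, 4} then 5 else if s = {1, 4} then 6 else if s = {1, 3} then 7 else
  if s = {0, 3} then 8 else 9

theorem PTS_adj : ∀ s t : {s : Finset (Fin 5) // s.card = 2},
    Disjoint s.1 t.1 ↔ tb (ent petRows (PTS_lab s.1)) (PTS_lab t.1) = true := by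
  decide +kernel

theorem PTS_inj : ∀ s t : {s : Finset (Fin 5) // s.card = 2}, PTS_lab s.1 = PTS_lab t.1 → s = t := by
  decide +kernel

theorem PTS_lt : ∀ s : {s : Finset (Fin 5) // s.card = 2}, PTS_lab s.1 < 10 := by
  decide +kernel

theorem PTS_deg : ∀ x < 10, ((Finset.range 10).filter (fun y => tb (ent petRows x) y = true)).card = 3 := by
  decide +kernel

theorem PTS (hTRR : TRR_stmt) (hTDD : TDD_stmt) : PTS_stmt := by
  intro V G g s v hC hR hp
  have hp2 : s.n = 10 ∧ (tbl g s).R = petRows := by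
    unfold isPet at hp
    rw [Bool.and_eq_true] at hp
    exact ⟨Nat.eq_of_beq_eq_true hp.1, Nat.eq_of_beq_eq_true hp.2⟩
  obtain ⟨hn, hRt⟩ := hp2
  obtain ⟨_, h2⟩ := hTRR V G g s v hR
  obtain ⟨d1, _, d3⟩ := hTDD V G g s v hC hR
  have key : ∀ x < 10, ∀ y < 10, (G.Adj (v x) (v y) ↔ tb (ent petRows x) y = true) := by
    intro x hx y hy
    constructor
    · intro hadj
      obtain ⟨U, hU, hz⟩ := d3 x (by omega)
      have hD := d1 x (by omega)
      rw [hRt, hn, PTS_deg x hx] at hD
      rw [hD] at hU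
      have hU0 : U = ∅ := Finset.card_eq_zero.mp (by omega)
      have hnot : ¬ (G.Adj (v x) (v y) ∧ ∀ y', tb (ent (tbl g s).R x) y' = true → v y ≠ v y') := by
        rw [← hz, hU0]
        simp
      by_contra hcon
      apply hnot
      refine ⟨hadj, ?_⟩
      intro y' hy' he
      have hlt := (h2 x y' hy').2.1
      have := hR.inj y (by omega) y' hlt he
      subst this
      rw [hRt] at hy'
      exact hcon hy'
    · intro h
      rw [← hRt] at h
      exact (h2 x y h).2.2.2.1
  refine ⟨⟨⟨fun t => v (PTS_lab t.1), ?_⟩, ?_⟩⟩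
  · intro a b hab
    have ha := PTS_lt a
    have hb := PTS_lt b
    exact PTS_inj a b (hR.inj _ (by omega) _ (by omega) hab)
  · intro a b
    show G.Adj (v (PTS_lab a.1)) (v (PTS_lab b.1)) ↔ Disjoint a.1 b.1
    rw [key _ (PTS_lt a) _ (PTS_lt b), ← PTS_adj]

end Pool.Agent.helper62.DP8
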